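import Mathlib
import Pool.Agent.Helper76.CND.Upper

namespace Pool.Agent.Results.MP_03af38_co.ArbitraryGirth

open SimpleGraph Pool.Agent.Helper76.CND

/-- `G` is a CND graph: it is connected, no path of `G` contains all vertices (`G` is not
traceable), and every vertex is an end vertex of a longest path of `G`. -/
structure IsCND {V : Type} (G : SimpleGraph V) : Prop where
  connected : G.Connected
  nontraceable : ∀ (u v : V) (p : G.Walk u v), p.IsPath → ∃ x, x ∉ p.support
  detour : ∀ v : V, ∃ (w : V) (p : G.Walk v w), p.IsPath ∧
    ∀ (x y : V) (q : G.Walk x y), q.IsPath → q.length ≤ p.length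

/-- A CND graph has a cycle. -/
private theorem not_acyclic {V : Type} {G : SimpleGraph V} (h : IsCND G) : ¬ G.IsAcyclic := by
  classical
  intro hac
  have huniq : ∀ {x y : V} (p q : G.Walk x y), p.IsPath → q.IsPath → p = q := by
    intro x y p q hp hq
    have := hac.path_unique ⟨p, hp⟩ ⟨q, hq⟩
    exact congrArg Subtype.val this
  obtain ⟨v⟩ := h.connected.nonempty
  obtain ⟨w, p, hp, hmax⟩ := h.detour v
  -- the longest path has at least two edges
  have hlen : 2 ≤ p.length := by
    by_contra hcon
    obtain ⟨x, hx⟩ := h.nontraceable v w p hp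
    obtain ⟨y, hy, z, hz, hyz⟩ : ∃ y, y ∈ p.support ∧ ∃ z, z ∉ p.support ∧ G.Adj y z := by
      by_contra hno
      push Not at hno
      obtain ⟨q⟩ := h.connected.preconnected v x
      have key : ∀ {a b : V} (r : G.Walk a b), a ∈ p.support → b ∈ p.support := by
        intro a b r
        induction r with
        | nil => exact id
        | @cons a c b hac r ih =>
          intro ha
          apply ih
          by_contra hc
          exact hno a ha c hc hac
      exact hx (key q p.start_mem_support)
    cases p with
    | nil =>
      rw [Walk.support_nil, List.mem_singleton] at hy hz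
      subst hy
      have := hmax _ _ (Walk.cons hyz Walk.nil) (by
        rw [Walk.cons_isPath_iff]
        exact ⟨Walk.IsPath.nil, by simpa using hyz.ne⟩)
      simp at this
    | @cons _ c _ hvc p =>
      cases p with
      | nil =>
        simp only [Walk.support_cons, Walk.support_nil, List.mem_cons, List.not_mem_nil,
          or_false] at hy hz
        push Not at hz
        rcases hy with rfl | rfl
        · have := hmax _ _ (Walk.cons hyz.symm (Walk.cons hvc Walk.nil)) (by
            simp [Walk.cons_isPath_iff, hvc.ne, hz.1, hz.2])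
          simp at this
        · have := hmax _ _ (Walk.cons hyz.symm (Walk.cons hvc.symm Walk.nil)) (by
            simp [Walk.cons_isPath_iff, hvc.ne.symm, hz.1, hz.2])
          simp at this
      | @cons _ d _ h' p => 
        apply hcon
        simp
  cases p with
  | nil => simp at hlen
  | @cons _ x _ hvx p =>
    obtain ⟨z, q, hq, hqmax⟩ := h.detour x
    have hql : q.length = p.length + 1 := by
      have h1 := hmax _ _ q hq
      have h2 := hqmax _ _ _ hp
      rw [Walk.length_cons] at h1 h2
      omega
    have hvq : v ∈ q.support := by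
      by_contra hcon
      have := hqmax _ _ (Walk.cons hvx q) (by
        rw [Walk.cons_isPath_iff]
        exact ⟨hq, hcon⟩)
      rw [Walk.length_cons] at this
      omega
    have hdec : q = (q.takeUntil v hvq).append (q.dropUntil v hvq) := (q.take_spec hvq).symm
    have htake : q.takeUntil v hvq = Walk.cons hvx.symm Walk.nil := by
      apply huniq _ _ (hq.takeUntil hvq)
      rw [Walk.cons_isPath_iff]
      exact ⟨Walk.IsPath.nil, by simpa using hvx.ne.symm⟩
    have hdrop : (q.dropUntil v hvq).length + 1 = q.length := by
      have := congrArg Walk.length hdec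
      rw [Walk.length_append, htake, Walk.length_cons, Walk.length_nil] at this
      omega
    have hpl : 1 ≤ p.length := by
      rw [Walk.length_cons] at hlen
      omega
    have hdp := hq.dropUntil hvq
    rw [htake] at hdec
    generalize q.dropUntil v hvq = r at hdec hdrop hdp
    cases r with
    | nil => 
      simp at hdrop
      omega
    | @cons _ v' _ hvv' r =>
      have hv'x : v' ≠ x := by
        intro hcon
        subst hcon
        rw [hdec] at hq
        rw [Walk.cons_append, Walk.nil_append, Walk.cons_isPath_iff] at hq
        apply hq.2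
        rw [Walk.support_cons]
        exact List.mem_cons_of_mem _ r.start_mem_support
      have hv'p : v' ∈ (Walk.cons hvx p).support := by
        by_contra hcon
        have := hmax _ _ (Walk.cons hvv'.symm (Walk.cons hvx p)) (by
          rw [Walk.cons_isPath_iff]
          exact ⟨hp, hcon⟩)
        rw [Walk.length_cons] at this
        omega
      have htake2 : (Walk.cons hvx p).takeUntil v' hv'p = Walk.cons hvv' Walk.nil := by
        apply huniq _ _ (hp.takeUntil hv'p)
        rw [Walk.cons_isPath_iff]
        exact ⟨Walk.IsPath.nil, by simpa using hvv'.ne⟩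
      have hspec := (Walk.cons hvx p).take_spec hv'p
      rw [htake2, Walk.cons_append, Walk.nil_append] at hspec
      injection hspec with _ h2
      exact hv'x h2

variable {g n : ℕ}

/-- The graph. -/
private abbrev GG (P : Piece g n) : SimpleGraph {v : B × Fin n // Ok P v} :=
  (full P).comap Subtype.val

open Classical in
/-- A path of the graph misses at least two vertices. -/
private theorem path_le (P : Piece g n) {x y : {v : B × Fin n // Ok P v}} (q : (GG P).Walk x y)
    (hq : q.IsPath) : q.support.length + 2 ≤ Fintype.card {v : B × Fin n // Ok P v} := by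
  let φ : GG P →g full P := ⟨Subtype.val, fun h => h⟩
  have hq' : (q.map φ).IsPath := Walk.map_isPath_of_injective Subtype.val_injective hq
  obtain ⟨j1, j2, hj, hj1, hj1', hj2, hj2'⟩ : ∃ j1 j2 : Fin 4, j1 ≠ j2 ∧ x.1.1.1 ≠ j1 ∧
      y.1.1.1 ≠ j1 ∧ x.1.1.1 ≠ j2 ∧ y.1.1.1 ≠ j2 := by
    generalize x.1.1.1 = a
    generalize y.1.1.1 = b
    revert a b
    decide
  have key : ∀ j : Fin 4, x.1.1.1 ≠ j → y.1.1.1 ≠ j → ∃ z : {v : B × Fin n // Ok P v},
      z ∉ q.support ∧ z.1.1.1 = j := by
    intro j h1 h2
    obtain ⟨a, ha⟩ := miss P (q.map φ) hq'.isTrail j h1 h2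
    refine ⟨⟨((j, a), P.p 0), fun _ => rfl⟩, ?_, rfl⟩
    intro hmem
    refine ha (((j, a), P.p 0)) ?_ rfl
    rw [Walk.support_map, List.mem_map]
    exact ⟨_, hmem, rfl⟩
  obtain ⟨z1, h1, h1'⟩ := key j1 hj1 hj1'
  obtain ⟨z2, h2, h2'⟩ := key j2 hj2 hj2'
  have hne : z1 ≠ z2 := by
    rintro rfl
    exact hj (h1'.symm.trans h2')
  have hcard : (q.support.toFinset ∪ {z1, z2}).card = q.support.length + 2 := by
    rw [Finset.card_union_of_disjoint, List.toFinset_card_of_nodup hq.support_nodup,
      Finset.card_pair hne]
    rw [Finset.disjoint_left]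
    intro a ha hb
    rw [List.mem_toFinset] at ha
    rw [Finset.mem_insert, Finset.mem_singleton] at hb
    rcases hb with rfl | rfl
    · exact h1 ha
    · exact h2 ha
  rw [← hcard]
  exact Finset.card_le_univ _

open Classical in
/-- Every vertex starts a path missing exactly two vertices. -/
private theorem exists_path (P : Piece g n) (v : {v : B × Fin n // Ok P v}) :
    ∃ (w : {v : B × Fin n // Ok P v}) (p : (GG P).Walk v w), p.IsPath ∧
      p.support.length + 2 = Fintype.card {v : B × Fin n // Ok P v} := by
  obtain ⟨c, l, h1, h2, h3, h4⟩ := exists_long P v.1 v.2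
  have hok : ∀ z ∈ l, Ok P z := fun z hz => ((h3 z).1 hz).2
  set L : List {v : B × Fin n // Ok P v} := l.attachWith (Ok P) hok with hL
  have hLl : L.map Subtype.val = l := List.attachWith_map_subtype_val _ 
  have hLc : L.IsChain (GG P).Adj := by
    rw [← hLl, List.isChain_map] at h1
    exact h1
  have hLn : L.Nodup := by
    rw [← hLl] at h2
    exact h2.of_map _
  have hLm : ∀ z : {v : B × Fin n // Ok P v}, z ∈ L ↔ z.1.1 ∈ skl v.1.1 c := by
    intro z
    have : z ∈ L ↔ z.1 ∈ l := by
      rw [← hLl, List.mem_map]
      constructor
      · intro h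
        exact ⟨z, h, rfl⟩
      · rintro ⟨z', h, h'⟩
        rwa [← Subtype.ext h']
    rw [this, h3]
    exact ⟨fun h => h.1, fun h => ⟨h, z.2⟩⟩
  have hLh : L.head? = some v := by
    have : (L.map Subtype.val).head? = some v.1 := by rw [hLl, h4]
    rw [List.head?_map, Option.map_eq_some_iff] at this
    obtain ⟨a, ha, ha'⟩ := this
    rw [ha, Subtype.ext ha']
  have hne : L ≠ [] := by
    intro h
    rw [h] at hLh
    simp at hLh
  have hhead : L.head hne = v := by
    rw [List.head?_eq_some_head hne] at hLh
    exact Option.some_inj.1 hLh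
  refine ⟨L.getLast hne, (Walk.ofSupport L hne hLc).copy hhead rfl, ?_, ?_⟩
  · rw [Walk.isPath_copy, Walk.isPath_def, Walk.support_ofSupport]
    exact hLn
  · rw [Walk.support_copy, Walk.support_ofSupport]
    have hcompl : (Finset.univ \ L.toFinset).card = 2 := by
      have hB : (Finset.univ \ (skl v.1.1 c).toFinset).card = 2 := by
        rw [Finset.card_sdiff_of_subset (Finset.subset_univ _),
          List.toFinset_card_of_nodup (skl_nodup _ _), skl_length]
        simp
      rw [← hB]
      apply Finset.card_bij (fun (z : {v : B × Fin n // Ok P v}) _ => z.1.1)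
      · intro z hz
        rw [Finset.mem_sdiff, List.mem_toFinset, hLm] at hz
        rw [Finset.mem_sdiff, List.mem_toFinset]
        exact ⟨Finset.mem_univ _, hz.2⟩
      · intro z hz z' hz' hzz
        rw [Finset.mem_sdiff, List.mem_toFinset, hLm] at hz hz'
        have e1 := z.2 (skl_miss _ _ _ hz.2)
        have e2 := z'.2 (skl_miss _ _ _ hz'.2)
        apply Subtype.ext
        exact Prod.ext hzz (e1.trans e2.symm)
      · intro b hb
        rw [Finset.mem_sdiff, List.mem_toFinset] at hb
        refine ⟨⟨(b, P.p 0), fun _ => rfl⟩, ?_, rfl⟩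
        rw [Finset.mem_sdiff, List.mem_toFinset, hLm]
        exact ⟨Finset.mem_univ _, hb.2⟩
    rw [Finset.card_sdiff_of_subset (Finset.subset_univ _), List.toFinset_card_of_nodup hLn,
      Finset.card_univ] at hcompl
    have := Finset.card_le_univ L.toFinset
    rw [List.toFinset_card_of_nodup hLn] at this
    omega

/-- For every `g` there is a CND graph of girth at least `g` (`girth` is the length of a shortest
cycle and `0` for a graph without cycles). -/
theorem result : ∀ g : ℕ, ∃ (V : Type) (_ : Fintype V) (G : SimpleGraph V),
    IsCND G ∧ g ≤ G.girth := by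
  classical
  intro g
  obtain ⟨n, ⟨P⟩⟩ := exists_piece g
  have hcnd : IsCND (GG P) := by
    refine ⟨?_, ?_, ?_⟩
    · have : Nonempty {v : B × Fin n // Ok P v} := ⟨⟨((0, 0), P.p 0), fun _ => rfl⟩⟩
      refine ⟨?_⟩
      intro u v
      obtain ⟨w, p, hp, hpl⟩ := exists_path P u
      obtain ⟨w', p', hp', hpl'⟩ := exists_path P v
      have hbig : 5 ≤ Fintype.card {v : B × Fin n // Ok P v} := by
        have : Fintype.card (Fin 5) ≤ Fintype.card {v : B × Fin n // Ok P v} := by
          apply Fintype.card_le_of_injective
            (fun i : Fin 5 => (⟨((0, ⟨i.val, by omega⟩), P.p 0), fun _ => rfl⟩ :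
              {v : B × Fin n // Ok P v}))
          intro i i' h
          simp only [Subtype.mk.injEq, Prod.mk.injEq, Fin.mk.injEq, and_true, true_and] at h
          exact Fin.ext h
        simpa using this
      obtain ⟨z, hz, hz'⟩ : ∃ z, z ∈ p.support ∧ z ∈ p'.support := by
        by_contra hcon
        push Not at hcon
        have hd : Disjoint p.support.toFinset p'.support.toFinset := by
          rw [Finset.disjoint_left]
          intro a ha hb
          rw [List.mem_toFinset] at ha hb
          exact hcon a ha hb
        have := Finset.card_le_univ (p.support.toFinset ∪ p'.support.toFinset)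
        rw [Finset.card_union_of_disjoint hd, List.toFinset_card_of_nodup hp.support_nodup,
          List.toFinset_card_of_nodup hp'.support_nodup] at this
        omega
      exact ⟨(p.takeUntil z hz).append (p'.takeUntil z hz').reverse⟩
    · intro u v p hp
      by_contra hcon
      push Not at hcon
      have h1 := path_le P p hp
      have h2 : p.support.toFinset = Finset.univ := by
        rw [Finset.eq_univ_iff_forall]
        intro x
        rw [List.mem_toFinset]
        exact hcon x
      have h3 := congrArg Finset.card h2
      rw [List.toFinset_card_of_nodup hp.support_nodup, Finset.card_univ] at h3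
      omega
    · intro v
      obtain ⟨w, p, hp, hpl⟩ := exists_path P v
      refine ⟨w, p, hp, ?_⟩
      intro x y q hq
      have := path_le P q hq
      rw [Walk.length_support] at this hpl
      omega
  refine ⟨{v : B × Fin n // Ok P v}, inferInstance, GG P, hcnd, ?_⟩
  have hns : NoShort (GG P) g := by
    intro x y hxy w
    have hle : ∃ q : ((full P).deleteEdges {s(x.1, y.1)}).Walk x.1 y.1, q.length = w.length := by
      let φ : (GG P).deleteEdges {s(x, y)} →g (full P).deleteEdges {s(x.1, y.1)} :=
        ⟨Subtype.val, by
          intro a b hab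
          rw [deleteEdges_adj] at hab ⊢
          refine ⟨hab.1, ?_⟩
          intro hcon
          apply hab.2
          rw [Set.mem_singleton_iff, Sym2.eq_iff] at hcon ⊢
          rcases hcon with ⟨e1, e2⟩ | ⟨e1, e2⟩
          · exact Or.inl ⟨Subtype.ext e1, Subtype.ext e2⟩
          · exact Or.inr ⟨Subtype.ext e1, Subtype.ext e2⟩⟩
      exact ⟨w.map φ, Walk.length_map _ _⟩
    obtain ⟨q, hq⟩ := hle
    rw [← hq]
    exact noShort_full P x.1 y.1 hxy q
  have h1 := hns.egirth
  have h2 : (GG P).egirth ≠ ⊤ := egirth_eq_top.not.mpr (not_acyclic hcnd)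
  rw [girth]
  exact_mod_cast ENat.toNat_le_toNat h1 h2

end Pool.Agent.Results.MP_03af38_co.ArbitraryGirth
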